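import Pool.Agent.helper90.ZD.SpecB

/-!
# Module BE2 of project zd (MP_4467b5_nt): from the exponent inequalities to a contradiction
-/

set_option autoImplicit false

open Complex MeasureTheory

namespace Pool.Agent.ZD

open Pool.Agent.helper84.DM Pool.Agent.helper78.ED Pool.Agent.DH

theorem BE2_gap {T ε x y : ℝ} (hT1 : 1 ≤ T) (hT : 400 ≤ T ^ (ε / 2)) (h : x + ε / 2 ≤ y) :
    400 * T ^ x ≤ T ^ y := by
  have hT0 : 0 < T := by linarith
  calc 400 * T ^ x ≤ T ^ (ε / 2) * T ^ x := by gcongr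
    _ = T ^ (x + ε / 2) := by rw [← Real.rpow_add hT0]; congr 1; ring
    _ ≤ T ^ y := Real.rpow_le_rpow_of_exponent_le hT1 h

theorem BE2_pow {T x : ℝ} (hT0 : 0 < T) (n : ℕ) : (T ^ x) ^ n = T ^ ((n : ℝ) * x) := by
  rw [← Real.rpow_natCast, ← Real.rpow_mul hT0.le]
  congr 1
  ring

theorem BE2_first {T ε s b w l R N L V : ℝ} (hT1 : 1 ≤ T) (hT : 400 ≤ T ^ (ε / 2)) (hε : 0 < ε)
    (hN : N = T ^ b) (hL : L ≤ 2 * T ^ l) (hV : T ^ (b * s - ε / 100) ≤ V)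
    (hR : T ^ (w + ε) / 2 ≤ R) (h : l + 2 * b * (1 - s) ≤ w) :
    T ^ (ε / 100) * (N ^ 2 * L) < V ^ 2 * R := by
  have hT0 : 0 < T := by linarith
  have h1 : T ^ (ε / 100) * (N ^ 2 * L) ≤ 2 * T ^ (ε / 100 + 2 * b + l) := by
    calc T ^ (ε / 100) * (N ^ 2 * L) ≤ T ^ (ε / 100) * (N ^ 2 * (2 * T ^ l)) := by gcongr
      _ = 2 * T ^ (ε / 100 + 2 * b + l) := by
        rw [hN, BE2_pow hT0, Real.rpow_add hT0, Real.rpow_add hT0]
        push_cast
        ring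
  have h2 : T ^ (2 * (b * s - ε / 100) + (w + ε)) / 2 ≤ V ^ 2 * R := by
    calc T ^ (2 * (b * s - ε / 100) + (w + ε)) / 2
        = (T ^ (b * s - ε / 100)) ^ 2 * (T ^ (w + ε) / 2) := by
          rw [BE2_pow hT0, Real.rpow_add hT0]
          push_cast
          ring
      _ ≤ V ^ 2 * R := by gcongr
  have h3 := BE2_gap (x := ε / 100 + 2 * b + l) (y := 2 * (b * s - ε / 100) + (w + ε)) hT1 hT
    (by nlinarith)
  have h4 : 0 < T ^ (ε / 100 + 2 * b + l) := Real.rpow_pos_of_pos hT0 _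
  linarith

theorem BE2_S {T ε w R S : ℝ} (hT1 : 1 ≤ T) (hε : 0 < ε) (hR0 : 0 ≤ R) (hR : R ≤ T ^ (w + ε))
    (hS : S = R ^ 2 + R ^ (3 / 2 : ℝ) * T ^ ((1 + ε / 100) / 3)) :
    S ≤ 2 * T ^ (sg w + 2 * ε + ε / 300) := by
  have hT0 : 0 < T := by linarith
  have h1 : R ^ 2 ≤ T ^ (sg w + 2 * ε + ε / 300) := by
    calc R ^ 2 ≤ (T ^ (w + ε)) ^ 2 := by gcongr
      _ = T ^ (2 * (w + ε)) := by rw [BE2_pow hT0]; push_cast; rfl
      _ ≤ T ^ (sg w + 2 * ε + ε / 300) := by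
        apply Real.rpow_le_rpow_of_exponent_le hT1
        have := le_max_left (2 * w) (3 / 2 * w + 1 / 3)
        unfold sg
        linarith
  have h2 : R ^ (3 / 2 : ℝ) * T ^ ((1 + ε / 100) / 3) ≤ T ^ (sg w + 2 * ε + ε / 300) := by
    calc R ^ (3 / 2 : ℝ) * T ^ ((1 + ε / 100) / 3)
        ≤ (T ^ (w + ε)) ^ (3 / 2 : ℝ) * T ^ ((1 + ε / 100) / 3) := by gcongr
      _ = T ^ ((w + ε) * (3 / 2) + (1 + ε / 100) / 3) := by
        rw [← Real.rpow_mul hT0.le, ← Real.rpow_add hT0]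
      _ ≤ T ^ (sg w + 2 * ε + ε / 300) := by
        apply Real.rpow_le_rpow_of_exponent_le hT1
        have := le_max_right (2 * w) (3 / 2 * w + 1 / 3)
        unfold sg
        linarith
  rw [hS]
  linarith

theorem BE2_second {T ε s b w l R N L V S q : ℝ} (hT1 : 1 ≤ T) (hT : 400 ≤ T ^ (ε / 2))
    (hε : 0 < ε) (hN : N = T ^ b) (hL0 : T ^ l ≤ L) (hL : L ≤ 2 * T ^ l)
    (hV : T ^ (b * s - ε / 100) ≤ V)
    (hR0 : T ^ (w + ε) / 2 ≤ R) (hR : R ≤ T ^ (w + ε))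
    (hS : S = R ^ 2 + R ^ (3 / 2 : ℝ) * T ^ ((1 + ε / 100) / 3))
    (hq : q ≤ T ^ (ε / 100) * (R ^ (3 / 2 : ℝ) + KQ R N V S)) (h : EXI s b w l) :
    T ^ (ε / 100) * (N ^ 3 * (T ^ 2 * R ^ (3 / 2 : ℝ) + N * L * T * q + N ^ 2 * L ^ 2 * S)) <
      V ^ 6 * (L * R ^ 3) := by
  obtain ⟨e0, e1, e2, e3, e4, e5, e6, e7, e8⟩ := h
  have hT0 : 0 < T := by linarith
  have hN0 : 0 < N := by rw [hN]; exact Real.rpow_pos_of_pos hT0 _
  have hV0 : 0 < V := lt_of_lt_of_le (Real.rpow_pos_of_pos hT0 _) hV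
  have hL00 : 0 < L := lt_of_lt_of_le (Real.rpow_pos_of_pos hT0 _) hL0
  have hR00 : 0 < R := lt_of_lt_of_le (by have := Real.rpow_pos_of_pos hT0 (w + ε); positivity) hR0
  have hS2 := BE2_S hT1 hε hR00.le hR hS
  have hS0 : 0 ≤ S := by rw [hS]; positivity
  set E : ℝ := 6 * (b * s) + l + 3 * w + 2 * ε + ε / 10 with hE
  have hEpos : 0 < T ^ E := Real.rpow_pos_of_pos hT0 _
  have hR32 : R ^ (3 / 2 : ℝ) ≤ T ^ ((w + ε) * (3 / 2)) := by
    rw [Real.rpow_mul hT0.le]; gcongr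
  have hR54 : R ^ (5 / 4 : ℝ) ≤ T ^ ((w + ε) * (5 / 4)) := by
    rw [Real.rpow_mul hT0.le]; gcongr
  have hNV : (N / V) ^ (3 / 2 : ℝ) ≤ T ^ ((b - (b * s - ε / 100)) * (3 / 2)) := by
    rw [Real.rpow_mul hT0.le, Real.rpow_sub hT0, ← hN]
    have := Real.rpow_pos_of_pos hT0 (b * s - ε / 100)
    gcongr
  have hV43 : V ^ (-(4 / 3) : ℝ) ≤ T ^ ((b * s - ε / 100) * (-(4 / 3))) := by
    rw [Real.rpow_mul hT0.le]
    exact Real.rpow_le_rpow_of_nonpos (Real.rpow_pos_of_pos hT0 _) hV (by norm_num)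
  have hS13 : S ^ (1 / 3 : ℝ) ≤ 2 * T ^ ((sg w + 2 * ε + ε / 300) * (1 / 3)) := by
    have h8 : (8 : ℝ) ^ (1 / 3 : ℝ) = 2 := by
      rw [show (8 : ℝ) = 2 ^ (3 : ℝ) by norm_num, ← Real.rpow_mul (by norm_num)]
      norm_num
    calc S ^ (1 / 3 : ℝ) ≤ (8 * T ^ (sg w + 2 * ε + ε / 300)) ^ (1 / 3 : ℝ) := by
          apply Real.rpow_le_rpow hS0 _ (by norm_num)
          have := Real.rpow_pos_of_pos hT0 (sg w + 2 * ε + ε / 300)
          linarith
      _ = 2 * T ^ ((sg w + 2 * ε + ε / 300) * (1 / 3)) := by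
        rw [Real.mul_rpow (by norm_num) (Real.rpow_pos_of_pos hT0 _).le, h8,
          Real.rpow_mul hT0.le]
  -- the terms
  have tA : T ^ (ε / 100) * (N ^ 3 * (T ^ 2 * R ^ (3 / 2 : ℝ))) ≤ T ^ E := by
    calc T ^ (ε / 100) * (N ^ 3 * (T ^ 2 * R ^ (3 / 2 : ℝ)))
        ≤ T ^ (ε / 100) * (N ^ 3 * (T ^ 2 * T ^ ((w + ε) * (3 / 2)))) := by gcongr
      _ = T ^ (ε / 100 + (3 * b + (2 + (w + ε) * (3 / 2)))) := by
        rw [hN, BE2_pow hT0, Real.rpow_add hT0, Real.rpow_add hT0, Real.rpow_add hT0]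
        norm_num
      _ ≤ T ^ E := by
        apply Real.rpow_le_rpow_of_exponent_le hT1
        rw [hE]
        linarith
  have tC : T ^ (ε / 100) * (N ^ 3 * (N ^ 2 * L ^ 2 * S)) ≤ 8 * T ^ E := by
    calc T ^ (ε / 100) * (N ^ 3 * (N ^ 2 * L ^ 2 * S))
        ≤ T ^ (ε / 100) * (N ^ 3 * (N ^ 2 * (2 * T ^ l) ^ 2 *
          (2 * T ^ (sg w + 2 * ε + ε / 300)))) := by gcongr
      _ = 8 * T ^ (ε / 100 + (3 * b + (2 * b + (2 * l + (sg w + 2 * ε + ε / 300))))) := by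
        rw [hN, mul_pow, BE2_pow hT0, BE2_pow hT0, BE2_pow hT0]
        rw [Real.rpow_add hT0 (ε / 100), Real.rpow_add hT0 (3 * b), Real.rpow_add hT0 (2 * b),
          Real.rpow_add hT0 (2 * l)]
        push_cast
        ring
      _ ≤ 8 * T ^ E := by
        apply mul_le_mul_of_nonneg_left _ (by norm_num)
        apply Real.rpow_le_rpow_of_exponent_le hT1
        rw [hE]
        linarith
  have tB0 : T ^ (ε / 100) * (N ^ 3 * (N * L * T * q)) ≤
      T ^ (ε / 100) * (N ^ 3 * (N * (2 * T ^ l) * T * (T ^ (ε / 100) *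
        (T ^ ((w + ε) * (3 / 2)) + (T ^ ((w + ε) * (5 / 4)) *
          T ^ ((b - (b * s - ε / 100)) * (3 / 2)) +
          T ^ (w + ε) * (2 * T ^ ((sg w + 2 * ε + ε / 300) * (1 / 3))) * N *
            T ^ ((b * s - ε / 100) * (-(4 / 3)))))))) := by
    have hK : KQ R N V S ≤ T ^ ((w + ε) * (5 / 4)) *
          T ^ ((b - (b * s - ε / 100)) * (3 / 2)) +
          T ^ (w + ε) * (2 * T ^ ((sg w + 2 * ε + ε / 300) * (1 / 3))) * N *
            T ^ ((b * s - ε / 100) * (-(4 / 3))) := by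
      unfold KQ
      gcongr
    have hq2 : q ≤ T ^ (ε / 100) *
        (T ^ ((w + ε) * (3 / 2)) + (T ^ ((w + ε) * (5 / 4)) *
          T ^ ((b - (b * s - ε / 100)) * (3 / 2)) +
          T ^ (w + ε) * (2 * T ^ ((sg w + 2 * ε + ε / 300) * (1 / 3))) * N *
            T ^ ((b * s - ε / 100) * (-(4 / 3))))) := by
      refine hq.trans ?_
      gcongr
    have hQ0 : 0 ≤ T ^ (ε / 100) *
        (T ^ ((w + ε) * (3 / 2)) + (T ^ ((w + ε) * (5 / 4)) *
          T ^ ((b - (b * s - ε / 100)) * (3 / 2)) +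
          T ^ (w + ε) * (2 * T ^ ((sg w + 2 * ε + ε / 300) * (1 / 3))) * N *
            T ^ ((b * s - ε / 100) * (-(4 / 3))))) := by positivity
    apply mul_le_mul_of_nonneg_left _ (by positivity)
    apply mul_le_mul_of_nonneg_left _ (by positivity)
    calc N * L * T * q ≤ N * L * T * (T ^ (ε / 100) *
        (T ^ ((w + ε) * (3 / 2)) + (T ^ ((w + ε) * (5 / 4)) *
          T ^ ((b - (b * s - ε / 100)) * (3 / 2)) +
          T ^ (w + ε) * (2 * T ^ ((sg w + 2 * ε + ε / 300) * (1 / 3))) * N *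
            T ^ ((b * s - ε / 100) * (-(4 / 3)))))) :=
          mul_le_mul_of_nonneg_left hq2 (by positivity)
      _ ≤ _ := by gcongr
  have tB1 : T ^ (ε / 100) * (N ^ 3 * (N * (2 * T ^ l) * T * (T ^ (ε / 100) *
        T ^ ((w + ε) * (3 / 2))))) ≤ 2 * T ^ E := by
    calc T ^ (ε / 100) * (N ^ 3 * (N * (2 * T ^ l) * T * (T ^ (ε / 100) *
        T ^ ((w + ε) * (3 / 2)))))
        = 2 * T ^ (ε / 100 + (3 * b + (b + (l + (1 + (ε / 100 + (w + ε) * (3 / 2))))))) := by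
          rw [hN, BE2_pow hT0]
          rw [Real.rpow_add hT0 (ε / 100), Real.rpow_add hT0 (3 * b), Real.rpow_add hT0 b,
            Real.rpow_add hT0 l, Real.rpow_add hT0 1, Real.rpow_add hT0 (ε / 100), Real.rpow_one]
          push_cast
          ring
      _ ≤ 2 * T ^ E := by
        apply mul_le_mul_of_nonneg_left _ (by norm_num)
        apply Real.rpow_le_rpow_of_exponent_le hT1
        rw [hE]
        linarith
  have tB2 : T ^ (ε / 100) * (N ^ 3 * (N * (2 * T ^ l) * T * (T ^ (ε / 100) *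
        (T ^ ((w + ε) * (5 / 4)) * T ^ ((b - (b * s - ε / 100)) * (3 / 2)))))) ≤ 2 * T ^ E := by
    calc T ^ (ε / 100) * (N ^ 3 * (N * (2 * T ^ l) * T * (T ^ (ε / 100) *
        (T ^ ((w + ε) * (5 / 4)) * T ^ ((b - (b * s - ε / 100)) * (3 / 2))))))
        = 2 * T ^ (ε / 100 + (3 * b + (b + (l + (1 + (ε / 100 + ((w + ε) * (5 / 4) +
          (b - (b * s - ε / 100)) * (3 / 2)))))))) := by
          rw [hN, BE2_pow hT0]
          rw [Real.rpow_add hT0 (ε / 100), Real.rpow_add hT0 (3 * b), Real.rpow_add hT0 b,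
            Real.rpow_add hT0 l, Real.rpow_add hT0 1, Real.rpow_add hT0 (ε / 100),
            Real.rpow_add hT0 ((w + ε) * (5 / 4)), Real.rpow_one]
          push_cast
          ring
      _ ≤ 2 * T ^ E := by
        apply mul_le_mul_of_nonneg_left _ (by norm_num)
        apply Real.rpow_le_rpow_of_exponent_le hT1
        rw [hE]
        linarith
  have tB3 : T ^ (ε / 100) * (N ^ 3 * (N * (2 * T ^ l) * T * (T ^ (ε / 100) *
        (T ^ (w + ε) * (2 * T ^ ((sg w + 2 * ε + ε / 300) * (1 / 3))) * N *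
            T ^ ((b * s - ε / 100) * (-(4 / 3))))))) ≤ 4 * T ^ E := by
    calc T ^ (ε / 100) * (N ^ 3 * (N * (2 * T ^ l) * T * (T ^ (ε / 100) *
        (T ^ (w + ε) * (2 * T ^ ((sg w + 2 * ε + ε / 300) * (1 / 3))) * N *
            T ^ ((b * s - ε / 100) * (-(4 / 3)))))))
        = 4 * T ^ (ε / 100 + (3 * b + (b + (l + (1 + (ε / 100 + ((w + ε) +
          ((sg w + 2 * ε + ε / 300) * (1 / 3) + (b + (b * s - ε / 100) * (-(4 / 3)))))))))) ) := by
          rw [hN, BE2_pow hT0]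
          rw [Real.rpow_add hT0 (ε / 100), Real.rpow_add hT0 (3 * b), Real.rpow_add hT0 b,
            Real.rpow_add hT0 l, Real.rpow_add hT0 1, Real.rpow_add hT0 (ε / 100),
            Real.rpow_add hT0 (w + ε), Real.rpow_add hT0 ((sg w + 2 * ε + ε / 300) * (1 / 3)),
            Real.rpow_add hT0 b, Real.rpow_one]
          push_cast
          ring
      _ ≤ 4 * T ^ E := by
        apply mul_le_mul_of_nonneg_left _ (by norm_num)
        apply Real.rpow_le_rpow_of_exponent_le hT1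
        rw [hE]
        linarith
  -- the lower bound
  have hlow : T ^ (6 * (b * s - ε / 100) + (l + 3 * (w + ε))) / 8 ≤ V ^ 6 * (L * R ^ 3) := by
    calc T ^ (6 * (b * s - ε / 100) + (l + 3 * (w + ε))) / 8
        = (T ^ (b * s - ε / 100)) ^ 6 * (T ^ l * (T ^ (w + ε) / 2) ^ 3) := by
          rw [div_pow, BE2_pow hT0, BE2_pow hT0, Real.rpow_add hT0, Real.rpow_add hT0]
          push_cast
          ring
      _ ≤ V ^ 6 * (L * R ^ 3) := by
          have := Real.rpow_pos_of_pos hT0 (w + ε)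
          gcongr
  have hgap := BE2_gap (x := E) (y := 6 * (b * s - ε / 100) + (l + 3 * (w + ε))) hT1 hT
    (by rw [hE]; linarith)
  have hsum : T ^ (ε / 100) * (N ^ 3 * (T ^ 2 * R ^ (3 / 2 : ℝ) + N * L * T * q +
      N ^ 2 * L ^ 2 * S)) = T ^ (ε / 100) * (N ^ 3 * (T ^ 2 * R ^ (3 / 2 : ℝ))) +
      T ^ (ε / 100) * (N ^ 3 * (N * L * T * q)) +
      T ^ (ε / 100) * (N ^ 3 * (N ^ 2 * L ^ 2 * S)) := by ring
  have hsumB : T ^ (ε / 100) * (N ^ 3 * (N * (2 * T ^ l) * T * (T ^ (ε / 100) *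
        (T ^ ((w + ε) * (3 / 2)) + (T ^ ((w + ε) * (5 / 4)) *
          T ^ ((b - (b * s - ε / 100)) * (3 / 2)) +
          T ^ (w + ε) * (2 * T ^ ((sg w + 2 * ε + ε / 300) * (1 / 3))) * N *
            T ^ ((b * s - ε / 100) * (-(4 / 3)))))))) =
      T ^ (ε / 100) * (N ^ 3 * (N * (2 * T ^ l) * T * (T ^ (ε / 100) *
        T ^ ((w + ε) * (3 / 2))))) +
      T ^ (ε / 100) * (N ^ 3 * (N * (2 * T ^ l) * T * (T ^ (ε / 100) *
        (T ^ ((w + ε) * (5 / 4)) * T ^ ((b - (b * s - ε / 100)) * (3 / 2)))))) +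
      T ^ (ε / 100) * (N ^ 3 * (N * (2 * T ^ l) * T * (T ^ (ε / 100) *
        (T ^ (w + ε) * (2 * T ^ ((sg w + 2 * ε + ε / 300) * (1 / 3))) * N *
            T ^ ((b * s - ε / 100) * (-(4 / 3))))))) := by ring
  linarith

/-- Module BE2. -/
theorem BE2 : BE2_stmt := by
  intro ε hε _
  refine ⟨(400 : ℝ) ^ (2 / ε), ?_⟩
  intro T hT s b w l R N L V S q _ _ _ _ _ _ hE hN hL0 hL hV hR0 hR hS hq
  have h1 : (1 : ℝ) ≤ (400 : ℝ) ^ (2 / ε) := Real.one_le_rpow (by norm_num) (by positivity)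
  have hT1 : 1 ≤ T := h1.trans hT
  have hT2 : 400 ≤ T ^ (ε / 2) := by
    calc (400 : ℝ) = ((400 : ℝ) ^ (2 / ε)) ^ (ε / 2) := by
          rw [← Real.rpow_mul (by norm_num)]
          rw [show 2 / ε * (ε / 2) = 1 by field_simp, Real.rpow_one]
      _ ≤ T ^ (ε / 2) := by
          apply Real.rpow_le_rpow (by linarith) hT (by positivity)
  refine ⟨?_, ?_⟩
  · intro h
    exact absurd h (not_le.mpr (BE2_first hT1 hT2 hε hN hL hV hR0 hE.2.2.1))
  · intro h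
    exact absurd h (not_le.mpr (BE2_second hT1 hT2 hε hN hL0 hL hV hR0 hR hS hq hE))

end Pool.Agent.ZD
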