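import Pool.Agent.helper7.ZD.Spec

/-!
# Row zd:NUE (MP_baa4d7_al, project ZD): two unit classes of the same block have conjugate groups `E`
-/

set_option autoImplicit false

namespace Pool.Agent.ND.NY

open Pool.Agent.helper58.DC Pool.Agent.DI Pool.Agent.GR Pool.Agent.OB Pool.Agent.DR Pool.Agent.FI Pool.Agent.FI3 Pool.Agent.FI4 Pool.Agent.FI4I Pool.Agent.LE Pool.Agent.L5 Pool.Agent.NAB
open Pool.Agent.ZB (Pm Om KZ EQ BQ lQ MZc BDK)

theorem NUE (hNUD : NUD_stmt) (hDUN : DUN_stmt) (hYE1 : YE1_stmt) (hZE2 : Pool.Agent.ZB.ZE2_stmt) : NUE_stmt := by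
  intro p e m M hM G _ _ K η hη z x z' x' h1 h2
  obtain ⟨D, y, hD, hzD, _, hKY⟩ := (hNUD p e m M hM G K η hη z x h1).2
  obtain ⟨D', y', hD', hzD', _, hKY'⟩ := (hNUD p e m M hM G K η hη z' x' h2).2
  obtain ⟨k, hk, hkD⟩ := (hDUN p M hM G K η hη D y hD).1 D' y' hD'
  have hp : p.Prime := hM.1
  obtain ⟨a1, _, _, _, _, a2, _⟩ := (hYE1 p hp m G D).1 e hKY
  obtain ⟨_, _, _, _, _, b2, _⟩ := (hYE1 p hp m G D').1 e hKY'
  have e1 : Eg p e z = EQ p m.s D := a2 z hzD h1.od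
  have e2 : Eg p e z' = EQ p m.s D' := b2 z' hzD' h2.od
  have e3 := ((hZE2 p hp m G D a1).2.2 k).2
  refine ⟨k, hk, ?_⟩
  rw [e1, e2, ← e3, ← hkD]

end Pool.Agent.ND.NY
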